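import Pool.Agent.Lib_helper51.TM32.Defs2
import Pool.Agent.Lib_helper51.TM32.E2
import Pool.Agent.Lib_helper37.TM32.D1
import Pool.Agent.Lib_helper33.TM32.E3

/-!
TM32, block CNT (uses D1, E2, E3 : stubs below).
-/

set_option autoImplicit false

namespace Pool.Agent.TM32

open Zsqrtd

/-! ### stubs of other blocks (D1, E2, E3) -/

/-! ### the block -/

theorem CNT_gg_mul (x y : Z8) : gg (x * y) = gg x * gg y + 2 * (hh x * hh y) := by
  unfold gg hh
  simp only [QuadraticAlgebra.re_mul, QuadraticAlgebra.im_mul, Zsqrtd.re_add, Zsqrtd.re_mul,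
    Zsqrtd.im_add, Zsqrtd.im_mul, Zsqrtd.re_one, Zsqrtd.im_one]
  ring

theorem CNT_hh_mul (x y : Z8) : hh (x * y) = gg x * hh y + hh x * gg y := by
  unfold gg hh
  simp only [QuadraticAlgebra.re_mul, QuadraticAlgebra.im_mul, Zsqrtd.re_add, Zsqrtd.re_mul,
    Zsqrtd.im_add, Zsqrtd.im_mul, Zsqrtd.re_one, Zsqrtd.im_one]
  ring

/-- the square of one absolute value -/
noncomputable def CNT_lam (w : Z8) : ℝ := gg w + Real.sqrt 2 * hh w

theorem CNT_lam_mul (x y : Z8) : CNT_lam (x * y) = CNT_lam x * CNT_lam y := by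
  unfold CNT_lam
  rw [CNT_gg_mul, CNT_hh_mul]
  push_cast
  have h2 : Real.sqrt 2 * Real.sqrt 2 = 2 := Real.mul_self_sqrt (by norm_num)
  linear_combination (-(hh x : ℝ) * hh y) * h2

theorem CNT_lam_one : CNT_lam 1 = 1 := by
  have h1 : (1 : Z8).re = 1 := rfl
  have h2 : (1 : Z8).im = 0 := rfl
  unfold CNT_lam gg hh
  rw [h1, h2]
  simp

theorem CNT_lam_pow (x : Z8) (n : ℕ) : CNT_lam (x ^ n) = CNT_lam x ^ n := by
  induction n with
  | zero => rw [pow_zero, pow_zero, CNT_lam_one]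
  | succ n ih => rw [pow_succ, pow_succ, CNT_lam_mul, ih]

theorem CNT_lam_zet : CNT_lam zet = 1 := by
  unfold CNT_lam gg hh
  simp

theorem CNT_lam_eps : CNT_lam eps = 3 + 2 * Real.sqrt 2 := by
  unfold CNT_lam gg hh
  simp
  ring

theorem CNT_prod (w : Z8) :
    CNT_lam w * ((gg w : ℝ) - Real.sqrt 2 * hh w) = (N8 w : ℝ) := by
  unfold CNT_lam
  rw [N8_eq]
  push_cast
  have h2 : Real.sqrt 2 * Real.sqrt 2 = 2 := Real.mul_self_sqrt (by norm_num)
  linear_combination (-(hh w : ℝ) * hh w) * h2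

theorem CNT_pos {w : Z8} (h : w ≠ 0) :
    0 < CNT_lam w ∧ 0 < (gg w : ℝ) - Real.sqrt 2 * hh w := by
  have h1 : (0 : ℝ) < CNT_lam w * ((gg w : ℝ) - Real.sqrt 2 * hh w) := by
    rw [CNT_prod]
    exact_mod_cast N8_pos h
  have h2 : 0 ≤ CNT_lam w + ((gg w : ℝ) - Real.sqrt 2 * hh w) := by
    have : (0 : ℝ) ≤ gg w := by exact_mod_cast gg_nonneg w
    unfold CNT_lam
    linarith
  rcases pos_and_pos_or_neg_and_neg_of_mul_pos h1 with h3 | h3
  · exact h3
  · linarith [h3.1, h3.2]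

theorem CNT_le {w : Z8} (h : w ≠ 0) : CNT_lam w ≤ 2 * gg w := by
  have := (CNT_pos h).2
  unfold CNT_lam
  linarith

theorem CNT_ge {w : Z8} (h : w ≠ 0) : 1 ≤ CNT_lam w * (2 * gg w) := by
  have h1 := CNT_pos h
  have h2 := CNT_prod w
  have h3 : (1 : ℝ) ≤ N8 w := by exact_mod_cast N8_pos h
  have h4 : (gg w : ℝ) - Real.sqrt 2 * hh w ≤ 2 * gg w := by
    have := h1.1
    unfold CNT_lam at this
    linarith
  calc (1 : ℝ) ≤ N8 w := h3
    _ = CNT_lam w * ((gg w : ℝ) - Real.sqrt 2 * hh w) := h2.symm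
    _ ≤ _ := mul_le_mul_of_nonneg_left h4 h1.1.le

theorem CNT_mem_bx {R : ℕ} {w : Z8} : w ∈ bx R ↔ |w.re.re| ≤ R ∧ |w.re.im| ≤ R ∧
    |w.im.re| ≤ R ∧ |w.im.im| ≤ R := by
  unfold bx
  simp only [Finset.mem_map, Finset.mem_product, Finset.mem_Icc,
    Prod.exists, abs_le]
  constructor
  · rintro ⟨a, b, c, d, ⟨⟨h1, h2⟩, h3, h4⟩, rfl⟩
    exact ⟨h1, h2, h3, h4⟩
  · rintro ⟨h1, h2, h3, h4⟩
    exact ⟨w.re.re, w.re.im, w.im.re, w.im.im, ⟨⟨h1, h2⟩, h3, h4⟩, rfl⟩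

theorem CNT_gg_le {R : ℕ} {w : Z8} (h : w ∈ bx R) : gg w ≤ 10 * (R : ℤ) ^ 2 := by
  obtain ⟨h1, h2, h3, h4⟩ := CNT_mem_bx.1 h
  have hR : (0 : ℤ) ≤ R := Int.natCast_nonneg R
  rw [abs_le] at h1 h2 h3 h4
  unfold gg
  have e1 : (w.re.re - w.im.im) ^ 2 ≤ (2 * (R : ℤ)) ^ 2 := by
    apply sq_le_sq'
    · linarith [h1.1, h4.2]
    · linarith [h1.2, h4.1]
  have e2 : (w.im.re + w.re.im) ^ 2 ≤ (2 * (R : ℤ)) ^ 2 := by
    apply sq_le_sq'
    · linarith [h3.1, h2.1]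
    · linarith [h3.2, h2.2]
  have e3 : w.im.im ^ 2 ≤ (R : ℤ) ^ 2 := sq_le_sq' h4.1 h4.2
  have e4 : w.re.im ^ 2 ≤ (R : ℤ) ^ 2 := sq_le_sq' h2.1 h2.2
  nlinarith

theorem CNT_abs_le_sq (a : ℤ) : |a| ≤ a ^ 2 := by
  rw [← sq_abs]
  rcases eq_or_lt_of_le (abs_nonneg a) with h | h
  · rw [← h]; norm_num
  · nlinarith

theorem CNT_mem_of_gg {B : ℕ} {w : Z8} (h : gg w ≤ 3 * (B : ℤ)) : w ∈ bx (6 * B) := by
  have a1 := CNT_abs_le_sq (w.re.re - w.im.im)
  have a2 := CNT_abs_le_sq (w.im.re + w.re.im)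
  have a3 := CNT_abs_le_sq w.im.im
  have a4 := CNT_abs_le_sq w.re.im
  have s1 := sq_nonneg (w.re.re - w.im.im)
  have s2 := sq_nonneg (w.im.re + w.re.im)
  have s3 := sq_nonneg w.im.im
  have s4 := sq_nonneg w.re.im
  unfold gg at h
  rw [CNT_mem_bx]
  push_cast
  rw [abs_le] at a1 a2 a3 a4
  simp only [abs_le]
  refine ⟨⟨?_, ?_⟩, ⟨?_, ?_⟩, ⟨?_, ?_⟩, ⟨?_, ?_⟩⟩ <;> linarith [a1.1, a1.2, a2.1, a2.2, a3.1, a3.2, a4.1, a4.2]

/-- the inverse of `ε` -/
abbrev CNT_epi : Z8 := ⟨⟨-1, -1⟩, ⟨2, 0⟩⟩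

theorem CNT_eps_epi : eps * CNT_epi = 1 := by
  ext <;> simp <;> rfl

theorem CNT_eps_unit : IsUnit eps := IsUnit.of_mul_eq_one _ CNT_eps_epi

theorem CNT_zet8 : zet ^ 8 = 1 := by
  have h2 : zet ^ 2 = ⟨1, sq⟩ := by
    rw [pow_two]
    ext <;> simp
  have h4 : zet ^ 4 = -1 := by
    have : zet ^ 4 = zet ^ 2 * zet ^ 2 := by ring
    rw [this, h2]
    ext <;> simp <;> rfl
  have : zet ^ 8 = zet ^ 4 * zet ^ 4 := by ring
  rw [this, h4]
  ring

theorem CNT_zet_mod (a : ℕ) : zet ^ a = zet ^ (a % 8) := by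
  conv_lhs => rw [← Nat.div_add_mod a 8, pow_add, pow_mul, CNT_zet8, one_pow, one_mul]

theorem CNT_hfin (B : ℕ) : ∃ S : Finset Z8, ∀ x : Z8, x ≠ 0 → (N8 x).natAbs ≤ B →
    ∃ y ∈ S, Associated x y := by
  refine ⟨bx (6 * B), fun x hx hB => ?_⟩
  obtain ⟨j, w', hw', hg⟩ := balanced hx
  have hu : IsUnit (eps ^ (2 * j)) := CNT_eps_unit.pow _
  have hass : Associated x w' := by
    rcases hw' with h | h
    · rw [h]
      exact (associated_unit_mul_left x _ hu).symm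
    · rw [h]
      exact associated_unit_mul_left w' _ hu
  refine ⟨w', ?_, hass⟩
  have hN := N8_assoc hass
  have hpos := N8_pos hx
  have hB1 : N8 x ≤ (B : ℤ) := by omega
  have hB2 : (1 : ℤ) ≤ B := by omega
  apply CNT_mem_of_gg
  rw [← hN] at hg
  have hg0 := gg_nonneg w'
  by_contra hc
  push Not at hc
  nlinarith

/-- one class -/
theorem CNT_fiber (R J : ℕ) (hR : 1 ≤ R)
    (hJ : ∀ j : ℕ, (3 + 2 * Real.sqrt 2) ^ j ≤ 400 * (R : ℝ) ^ 4 → j ≤ J) (x0 : Z8)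
    (h0 : x0 ≠ 0) (hx0 : x0 ∈ bx R) (S : Finset Z8)
    (hS : ∀ w ∈ S, w ∈ bx R ∧ Associated x0 w) : S.card ≤ 16 * (J + 1) := by
  classical
  let G : Bool × ℕ × ℕ → Z8 := fun t =>
    if t.1 then x0 * (zet ^ t.2.2 * eps ^ t.2.1) else x0 * (zet ^ t.2.2 * CNT_epi ^ t.2.1)
  have hsub : S ⊆ ((Finset.univ : Finset Bool) ×ˢ (Finset.range (J + 1) ×ˢ Finset.range 8)).image
      G := by
    intro w hw
    obtain ⟨hwR, hass⟩ := hS w hw
    obtain ⟨u, hu⟩ := hass
    have hw0 : w ≠ 0 := by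
      rw [← hu]
      exact mul_ne_zero h0 u.ne_zero
    have hN : N8 (u : Z8) = 1 := isUnit_iff.1 u.isUnit
    obtain ⟨a, j, haj⟩ := unit_form hN
    have hR0 : (0 : ℝ) < R := by exact_mod_cast hR
    have hgx : (gg x0 : ℝ) ≤ 10 * (R : ℝ) ^ 2 := by exact_mod_cast CNT_gg_le hx0
    have hgw : (gg w : ℝ) ≤ 10 * (R : ℝ) ^ 2 := by exact_mod_cast CNT_gg_le hwR
    have px := CNT_pos h0
    have pw := CNT_pos hw0
    have hgx0 : (0 : ℝ) ≤ gg x0 := by exact_mod_cast gg_nonneg x0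
    have hgw0 : (0 : ℝ) ≤ gg w := by exact_mod_cast gg_nonneg w
    have lx := CNT_le h0
    have lw := CNT_le hw0
    have gx := CNT_ge h0
    have gw := CNT_ge hw0
    rw [Finset.mem_image]
    rcases haj with h | h
    · -- `u * eps ^ j = zet ^ a`
      have h1 : w * eps ^ j = x0 * zet ^ a := by
        rw [← hu, mul_assoc, h]
      have h2 : CNT_lam w * (3 + 2 * Real.sqrt 2) ^ j = CNT_lam x0 := by
        have := congrArg CNT_lam h1
        rw [CNT_lam_mul, CNT_lam_mul, CNT_lam_pow, CNT_lam_pow, CNT_lam_zet, CNT_lam_eps,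
          one_pow, mul_one] at this
        exact this
      have hpow : (3 + 2 * Real.sqrt 2) ^ j ≤ 400 * (R : ℝ) ^ 4 := by
        have hp : (0 : ℝ) ≤ (3 + 2 * Real.sqrt 2) ^ j := by positivity
        calc (3 + 2 * Real.sqrt 2) ^ j = 1 * (3 + 2 * Real.sqrt 2) ^ j := (one_mul _).symm
          _ ≤ (CNT_lam w * (2 * gg w)) * (3 + 2 * Real.sqrt 2) ^ j :=
              mul_le_mul_of_nonneg_right gw hp
          _ = (2 * gg w) * (CNT_lam w * (3 + 2 * Real.sqrt 2) ^ j) := by ring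
          _ = (2 * gg w) * CNT_lam x0 := by rw [h2]
          _ ≤ (2 * (10 * (R : ℝ) ^ 2)) * (2 * (10 * (R : ℝ) ^ 2)) := by
              apply mul_le_mul
              · linarith
              · linarith
              · exact px.1.le
              · positivity
          _ = 400 * (R : ℝ) ^ 4 := by ring
      refine ⟨(false, j, a % 8), ?_, ?_⟩
      · rw [Finset.mem_product, Finset.mem_product, Finset.mem_range, Finset.mem_range]
        exact ⟨Finset.mem_univ _, Nat.lt_succ_of_le (hJ j hpow), Nat.mod_lt _ (by norm_num)⟩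
      · show (if (false : Bool) = true then _ else x0 * (zet ^ (a % 8) * CNT_epi ^ j)) = w
        rw [if_neg (by simp), ← CNT_zet_mod, ← hu, ← h]
        have : (u : Z8) * eps ^ j * CNT_epi ^ j = u := by
          rw [mul_assoc, ← mul_pow, CNT_eps_epi, one_pow, mul_one]
        rw [this]
    · have h1 : w = x0 * zet ^ a * eps ^ j := by
        rw [← hu, h]; ring
      have h2 : CNT_lam w = CNT_lam x0 * (3 + 2 * Real.sqrt 2) ^ j := by
        have := congrArg CNT_lam h1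
        rw [CNT_lam_mul, CNT_lam_mul, CNT_lam_pow, CNT_lam_pow, CNT_lam_zet, CNT_lam_eps,
          one_pow, mul_one] at this
        exact this
      have hpow : (3 + 2 * Real.sqrt 2) ^ j ≤ 400 * (R : ℝ) ^ 4 := by
        have hp : (0 : ℝ) ≤ (3 + 2 * Real.sqrt 2) ^ j := by positivity
        calc (3 + 2 * Real.sqrt 2) ^ j = 1 * (3 + 2 * Real.sqrt 2) ^ j := (one_mul _).symm
          _ ≤ (CNT_lam x0 * (2 * gg x0)) * (3 + 2 * Real.sqrt 2) ^ j :=
              mul_le_mul_of_nonneg_right gx hp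
          _ = (2 * gg x0) * (CNT_lam x0 * (3 + 2 * Real.sqrt 2) ^ j) := by ring
          _ = (2 * gg x0) * CNT_lam w := by rw [h2]
          _ ≤ (2 * (10 * (R : ℝ) ^ 2)) * (2 * (10 * (R : ℝ) ^ 2)) := by
              apply mul_le_mul
              · linarith
              · linarith
              · exact pw.1.le
              · positivity
          _ = 400 * (R : ℝ) ^ 4 := by ring
      refine ⟨(true, j, a % 8), ?_, ?_⟩
      · rw [Finset.mem_product, Finset.mem_product, Finset.mem_range, Finset.mem_range]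
        exact ⟨Finset.mem_univ _, Nat.lt_succ_of_le (hJ j hpow), Nat.mod_lt _ (by norm_num)⟩
      · show (if (true : Bool) = true then x0 * (zet ^ (a % 8) * eps ^ j) else _) = w
        rw [if_pos rfl, ← CNT_zet_mod, h1, mul_assoc]
  refine (Finset.card_le_card hsub).trans (Finset.card_image_le.trans ?_)
  rw [Finset.card_product, Finset.card_product, Finset.card_range, Finset.card_range,
    Finset.card_univ, Fintype.card_bool]
  omega

theorem cnt (ε : ℝ) (hε : 0 < ε) : ∃ C : ℝ, ∀ R n : ℕ, 1 ≤ R → 1 ≤ n →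
    (((bx R).filter (fun w => N8 w = n)).card : ℝ) ≤ C * (R : ℝ) ^ ε := by
  classical
  obtain ⟨C₁, hC₁⟩ := div_bound (Λ := Z8) (fun w => (N8 w).natAbs)
    (fun x y => by simp only [N8_mul, Int.natAbs_mul])
    (fun x hx => by have := N8_pos hx; omega)
    (fun x hx => isUnit_iff.2 (by have := N8_nonneg x; omega)) CNT_hfin (ε / 32) (by positivity)
  have hl : 0 < Real.log (3 + 2 * Real.sqrt 2) := by
    apply Real.log_pos
    have := Real.sqrt_nonneg 2
    linarith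
  let K₁ : ℝ := 8 / (ε * Real.log (3 + 2 * Real.sqrt 2)) * (400 : ℝ) ^ (ε / 8)
  have hK₁ : 0 ≤ K₁ := by positivity
  refine ⟨16 * (K₁ + 1) * (|C₁| * ((10 : ℝ) ^ 8) ^ (ε / 32)), fun R n hR hn => ?_⟩
  have hR0 : (0 : ℝ) < R := by exact_mod_cast hR
  have hR1 : (1 : ℝ) ≤ R := by exact_mod_cast hR
  set S := (bx R).filter (fun w => N8 w = n) with hSdef
  rcases S.eq_empty_or_nonempty with hem | ⟨w0, hw0⟩
  · rw [hem, Finset.card_empty, Nat.cast_zero]
    positivity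
  have hmem : ∀ w ∈ S, w ∈ bx R ∧ N8 w = n ∧ w ≠ 0 := by
    intro w hw
    have h1 := Finset.mem_filter.1 hw
    refine ⟨h1.1, h1.2, ?_⟩
    rintro rfl
    have h2 := h1.2
    rw [N8_eq_zero.2 rfl] at h2
    omega
  -- the bound for the exponents
  set J := ⌊K₁ * (R : ℝ) ^ (ε / 2)⌋₊ with hJdef
  have hJ : ∀ j : ℕ, (3 + 2 * Real.sqrt 2) ^ j ≤ 400 * (R : ℝ) ^ 4 → j ≤ J := by
    intro j hj
    apply Nat.le_floor
    have h1 : ((3 + 2 * Real.sqrt 2) ^ j) ^ (ε / 8) ≤ (400 * (R : ℝ) ^ 4) ^ (ε / 8) :=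
      Real.rpow_le_rpow (by positivity) hj (by positivity)
    have h2 : ((3 + 2 * Real.sqrt 2) ^ j) ^ (ε / 8) =
        Real.exp (j * (ε / 8) * Real.log (3 + 2 * Real.sqrt 2)) := by
      rw [← Real.rpow_natCast, ← Real.rpow_mul (by positivity), Real.rpow_def_of_pos (by positivity)]
      congr 1
      ring
    have h3 : j * (ε / 8) * Real.log (3 + 2 * Real.sqrt 2) ≤
        ((3 + 2 * Real.sqrt 2) ^ j) ^ (ε / 8) := by
      rw [h2]
      have := Real.add_one_le_exp (j * (ε / 8) * Real.log (3 + 2 * Real.sqrt 2))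
      linarith
    have h4 : (400 * (R : ℝ) ^ 4) ^ (ε / 8) = (400 : ℝ) ^ (ε / 8) * (R : ℝ) ^ (ε / 2) := by
      rw [Real.mul_rpow (by norm_num) (by positivity), ← Real.rpow_natCast,
        ← Real.rpow_mul hR0.le]
      congr 2
      push_cast
      ring
    have h5 := h3.trans (h1.trans (le_of_eq h4))
    have h6 : (j : ℝ) * (ε * Real.log (3 + 2 * Real.sqrt 2)) ≤
        8 * ((400 : ℝ) ^ (ε / 8) * (R : ℝ) ^ (ε / 2)) := by
      calc (j : ℝ) * (ε * Real.log (3 + 2 * Real.sqrt 2))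
          = 8 * (j * (ε / 8) * Real.log (3 + 2 * Real.sqrt 2)) := by ring
        _ ≤ _ := mul_le_mul_of_nonneg_left h5 (by norm_num)
    have h7 : 0 < ε * Real.log (3 + 2 * Real.sqrt 2) := by positivity
    calc (j : ℝ) ≤ 8 * ((400 : ℝ) ^ (ε / 8) * (R : ℝ) ^ (ε / 2)) /
          (ε * Real.log (3 + 2 * Real.sqrt 2)) := (le_div_iff₀ h7).2 h6
      _ = K₁ * (R : ℝ) ^ (ε / 2) := by
        simp only [K₁]
        ring
  -- classes
  let T := S.image (Associates.mk : Z8 → Associates Z8)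
  have hcard : S.card ≤ 16 * (J + 1) * T.card := by
    apply Finset.card_le_mul_card_image
    intro t ht
    obtain ⟨x0, hx0, rfl⟩ := Finset.mem_image.1 ht
    obtain ⟨hx0R, -, hx00⟩ := hmem x0 hx0
    apply CNT_fiber R J hR hJ x0 hx00 hx0R
    intro w hw
    obtain ⟨hw1, hw2⟩ := Finset.mem_filter.1 hw
    exact ⟨(hmem w hw1).1, Associates.mk_eq_mk_iff_associated.1 hw2.symm⟩
  have hT : (T.card : ℝ) ≤ |C₁| * ((10 : ℝ) ^ 8) ^ (ε / 32) * (R : ℝ) ^ (ε / 2) := by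
    let X := T.image (Quotient.out : Associates Z8 → Z8)
    have hout : ∀ t : Associates Z8, Associates.mk (Quotient.out t) = t := fun t => Quotient.out_eq t
    have hXc : X.card = T.card := by
      apply Finset.card_image_of_injective
      intro t t' h
      rw [← hout t, ← hout t', h]
    have hz : ((n : ℤ) : Z8) ≠ 0 := by
      intro h
      have := congrArg N8 h
      rw [N8_intCast, N8_eq_zero.2 rfl] at this
      have hn' : (n : ℤ) ^ 4 ≠ 0 := pow_ne_zero _ (by omega)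
      exact hn' this
    have h1 := hC₁ ((n : ℤ) : Z8) hz X ?_ ?_
    · rw [hXc] at h1
      have hNz : ((N8 ((n : ℤ) : Z8)).natAbs : ℝ) = (n : ℝ) ^ 4 := by
        rw [N8_intCast, Int.natAbs_pow, Int.natAbs_natCast]
        push_cast
        rfl
      have hn100 : (n : ℝ) ≤ 100 * (R : ℝ) ^ 4 := by
        obtain ⟨hw1, hw2, -⟩ := hmem w0 hw0
        have e1 := CNT_gg_le hw1
        have e2 := gg_nonneg w0
        have e3 : (n : ℤ) ≤ 100 * (R : ℤ) ^ 4 := by
          rw [← hw2, N8_eq]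
          nlinarith [sq_nonneg (hh w0)]
        exact_mod_cast e3
      have h2 : ((N8 ((n : ℤ) : Z8)).natAbs : ℝ) ^ (ε / 32) ≤
          ((10 : ℝ) ^ 8) ^ (ε / 32) * (R : ℝ) ^ (ε / 2) := by
        rw [hNz]
        have h3 : (n : ℝ) ^ 4 ≤ (10 : ℝ) ^ 8 * (R : ℝ) ^ 16 := by
          calc (n : ℝ) ^ 4 ≤ (100 * (R : ℝ) ^ 4) ^ 4 := pow_le_pow_left₀ (by positivity) hn100 4
            _ = _ := by ring
        calc ((n : ℝ) ^ 4) ^ (ε / 32) ≤ ((10 : ℝ) ^ 8 * (R : ℝ) ^ 16) ^ (ε / 32) :=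
              Real.rpow_le_rpow (by positivity) h3 (by positivity)
          _ = _ := by
              rw [Real.mul_rpow (by positivity) (by positivity),
                ← Real.rpow_natCast (R : ℝ) 16, ← Real.rpow_mul hR0.le]
              congr 2
              push_cast
              ring
      calc (T.card : ℝ) ≤ C₁ * ((N8 ((n : ℤ) : Z8)).natAbs : ℝ) ^ (ε / 32) := h1
        _ ≤ |C₁| * ((N8 ((n : ℤ) : Z8)).natAbs : ℝ) ^ (ε / 32) :=
            mul_le_mul_of_nonneg_right (le_abs_self _) (by positivity)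
        _ ≤ |C₁| * (((10 : ℝ) ^ 8) ^ (ε / 32) * (R : ℝ) ^ (ε / 2)) :=
            mul_le_mul_of_nonneg_left h2 (abs_nonneg _)
        _ = _ := by ring
    · intro x hx
      obtain ⟨t, ht, rfl⟩ := Finset.mem_image.1 hx
      obtain ⟨w, hw, rfl⟩ := Finset.mem_image.1 ht
      have hass : Associated (Quotient.out (Associates.mk w)) w :=
        Associates.mk_eq_mk_iff_associated.1 (hout (Associates.mk w))
      have h3 := dvd_N8 w
      rw [(hmem w hw).2.1] at h3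
      exact hass.dvd.trans h3
    · intro x hx y hy hxy
      obtain ⟨t, ht, rfl⟩ := Finset.mem_image.1 hx
      obtain ⟨t', ht', rfl⟩ := Finset.mem_image.1 hy
      have h3 := Associates.mk_eq_mk_iff_associated.2 hxy
      rw [hout, hout] at h3
      rw [h3]
  have hJ1 : ((J : ℝ) + 1) ≤ (K₁ + 1) * (R : ℝ) ^ (ε / 2) := by
    have h1 : (J : ℝ) ≤ K₁ * (R : ℝ) ^ (ε / 2) := Nat.floor_le (by positivity)
    have h2 : (1 : ℝ) ≤ (R : ℝ) ^ (ε / 2) := Real.one_le_rpow hR1 (by positivity)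
    linarith
  have hc' : (S.card : ℝ) ≤ 16 * ((J : ℝ) + 1) * (T.card : ℝ) := by exact_mod_cast hcard
  calc (S.card : ℝ) ≤ 16 * ((J : ℝ) + 1) * (T.card : ℝ) := hc'
    _ ≤ 16 * ((K₁ + 1) * (R : ℝ) ^ (ε / 2)) *
        (|C₁| * ((10 : ℝ) ^ 8) ^ (ε / 32) * (R : ℝ) ^ (ε / 2)) := by
        apply mul_le_mul _ hT (by positivity) (by positivity)
        exact mul_le_mul_of_nonneg_left hJ1 (by norm_num)
    _ = 16 * (K₁ + 1) * (|C₁| * ((10 : ℝ) ^ 8) ^ (ε / 32)) *
        ((R : ℝ) ^ (ε / 2) * (R : ℝ) ^ (ε / 2)) := by ring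
    _ = _ := by
        rw [← Real.rpow_add hR0]
        congr 2
        ring

end Pool.Agent.TM32
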